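import Mathlib

set_option autoImplicit false

/-!
Signed involutions with compatible weakly increasing fillings, and the lexicographic sort.
-/

namespace Pool.Agent.K4H83.BI

open Finset

abbrev SP (n : ℕ) := Equiv.Perm (Fin n) × (Fin n → Bool)

/-- signed value -/
def val {n : ℕ} (w : SP n) (i : Fin n) : ℤ :=
  (if w.2 i then (-1 : ℤ) else 1) * (((w.1 i : ℕ) : ℤ) + 1)

def Inv {n : ℕ} (w : SP n) : Prop := ∀ i : Fin n, w.1 (w.1 i) = i ∧ w.2 (w.1 i) = w.2 i

def key {n : ℕ} (w : SP n) (f : Fin n → ℕ) (i : Fin n) : ℤ ×ₗ ℤ := toLex ((f i : ℤ), val w i)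

def Compat {n : ℕ} (w : SP n) (f : Fin n → ℕ) : Prop :=
  StrictMono (key w f) ∧ ∀ i, f i = 0 → w.2 i = false

def lab {n : ℕ} (w : SP n) (f : Fin n → ℕ) (i : Fin n) : ℤ ×ₗ ℤ :=
  toLex ((f i : ℤ), (if w.2 i then -(f (w.1 i) : ℤ) else (f (w.1 i) : ℤ)))

def tau (p : ℤ ×ₗ ℤ) : ℤ ×ₗ ℤ :=
  if 0 ≤ (ofLex p).2 then toLex ((ofLex p).2, (ofLex p).1)
    else toLex (-(ofLex p).2, -(ofLex p).1)

def kap {n : ℕ} (p : Fin n → ℤ ×ₗ ℤ) (i : Fin n) : (ℤ ×ₗ ℤ) ×ₗ ℤ :=
  toLex (tau (p i), if 0 ≤ (ofLex (p i)).2 then ((i : ℕ) : ℤ) else -((i : ℕ) : ℤ))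

theorem val_true {n : ℕ} {w : SP n} {i : Fin n} (h : w.2 i = true) :
    val w i = -(((w.1 i : ℕ) : ℤ) + 1) := by
  unfold val; rw [h]; simp

theorem val_false {n : ℕ} {w : SP n} {i : Fin n} (h : w.2 i = false) :
    val w i = (((w.1 i : ℕ) : ℤ) + 1) := by
  unfold val; rw [h]; simp

theorem lab_true {n : ℕ} {w : SP n} {f : Fin n → ℕ} {i : Fin n} (h : w.2 i = true) :
    lab w f i = toLex ((f i : ℤ), -(f (w.1 i) : ℤ)) := by
  unfold lab; rw [h]; simp

theorem lab_false {n : ℕ} {w : SP n} {f : Fin n → ℕ} {i : Fin n} (h : w.2 i = false) :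
    lab w f i = toLex ((f i : ℤ), (f (w.1 i) : ℤ)) := by
  unfold lab; rw [h]; simp

theorem mono_of_compat {n : ℕ} {w : SP n} {f : Fin n → ℕ} (hc : Compat w f) : Monotone f := by
  intro i j hij
  rcases hij.lt_or_eq with h | h
  · have := hc.1 h
    unfold key at this
    rw [Prod.Lex.toLex_lt_toLex'] at this
    have h2 : (f i : ℤ) ≤ f j := this.1
    exact_mod_cast h2
  · rw [h]

theorem val_lt_of_compat {n : ℕ} {w : SP n} {f : Fin n → ℕ} (hc : Compat w f) {i j : Fin n}
    (hij : i < j) (hf : f i = f j) : val w i < val w j := by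
  have := hc.1 hij
  unfold key at this
  rw [Prod.Lex.toLex_lt_toLex'] at this
  exact this.2 (by simp [hf])

theorem lab_mono {n : ℕ} {w : SP n} {f : Fin n → ℕ} (hc : Compat w f) : Monotone (lab w f) := by
  intro i j hij
  rcases hij.lt_or_eq with h | h
  · have hf := mono_of_compat hc
    unfold lab
    rw [Prod.Lex.toLex_le_toLex']
    refine ⟨?_, ?_⟩
    · show (f i : ℤ) ≤ f j
      exact_mod_cast hf hij
    intro he
    have he' : f i = f j := by simpa using he
    have hv := val_lt_of_compat hc h he'
    rcases hi : w.2 i with _ | _ <;> rcases hj : w.2 j with _ | _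
    · rw [val_false hi, val_false hj] at hv
      have : w.1 i ≤ w.1 j := by
        rw [Fin.le_def]; omega
      have := hf this
      simpa using this
    · rw [val_false hi, val_true hj] at hv
      exfalso; omega
    · simp only [if_true]
      simp
    · rw [val_true hi, val_true hj] at hv
      have : w.1 j ≤ w.1 i := by
        rw [Fin.le_def]; omega
      have := hf this
      simp
      exact_mod_cast this
  · rw [h]

theorem tau_lab {n : ℕ} {w : SP n} {f : Fin n → ℕ} (hw : Inv w) (hc : Compat w f) (i : Fin n) :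
    tau (lab w f i) = lab w f (w.1 i) := by
  rcases hi : w.2 i with _ | _
  · have hi2 : w.2 (w.1 i) = false := by rw [(hw i).2, hi]
    rw [lab_false hi, lab_false hi2, (hw i).1]
    unfold tau
    simp
  · have hi2 : w.2 (w.1 i) = true := by rw [(hw i).2, hi]
    rw [lab_true hi, lab_true hi2, (hw i).1]
    unfold tau
    have h0 : f (w.1 i) ≠ 0 := by
      intro h
      have := hc.2 _ h
      rw [hi2] at this
      cases this
    rw [if_neg]
    · simp
    · simp
      omega

theorem sign_lab {n : ℕ} {w : SP n} {f : Fin n → ℕ} (hw : Inv w) (hc : Compat w f) (i : Fin n) :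
    0 ≤ (ofLex (lab w f i)).2 ↔ w.2 i = false := by
  rcases hi : w.2 i with _ | _
  · rw [lab_false hi]; simp
  · rw [lab_true hi]
    have hi2 : w.2 (w.1 i) = true := by rw [(hw i).2, hi]
    have h0 : f (w.1 i) ≠ 0 := by
      intro h
      have := hc.2 _ h
      rw [hi2] at this
      cases this
    simp
    omega

theorem kap_strict {n : ℕ} {w : SP n} {f : Fin n → ℕ} (hw : Inv w) (hc : Compat w f) :
    StrictMono (kap (lab w f) ∘ w.1) := by
  intro i j hij
  simp only [Function.comp]
  unfold kap
  rw [Prod.Lex.toLex_lt_toLex']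
  have e1 : ∀ i, tau (lab w f (w.1 i)) = lab w f i := by
    intro i
    rw [tau_lab hw hc, (hw i).1]
  refine ⟨?_, ?_⟩
  · show tau _ ≤ tau _
    rw [e1, e1]
    exact lab_mono hc hij.le
  · show tau _ = tau _ → _
    rw [e1, e1]
    intro he
    show (if _ then _ else _) < (if _ then _ else _)
    have s1 : 0 ≤ (ofLex (lab w f (w.1 i))).2 ↔ w.2 i = false := by
      rw [sign_lab hw hc, (hw i).2]
    have s2 : 0 ≤ (ofLex (lab w f (w.1 j))).2 ↔ w.2 j = false := by
      rw [sign_lab hw hc, (hw j).2]
    have s3 : w.2 i = false ↔ w.2 j = false := by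
      rw [← sign_lab hw hc i, ← sign_lab hw hc j, he]
    have hf : f i = f j := by
      have := congrArg (fun x => (ofLex x).1) he
      simpa [lab] using this
    have hv := val_lt_of_compat hc hij hf
    rcases hi : w.2 i with _ | _
    · have hj : w.2 j = false := s3.1 hi
      rw [if_pos (s1.2 hi), if_pos (s2.2 hj)]
      rw [val_false hi, val_false hj] at hv
      omega
    · have hj : w.2 j = true := by
        rcases hj : w.2 j with _ | _
        · rw [s3.2 hj] at hi; cases hi
        · rfl
      rw [if_neg (by rw [s1, hi]; simp), if_neg (by rw [s2, hj]; simp)]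
      rw [val_true hi, val_true hj] at hv
      omega

theorem kap_inj {n : ℕ} (p : Fin n → ℤ ×ₗ ℤ) : Function.Injective (kap p) := by
  intro i j h
  unfold kap at h
  have h' := (toLex_inj.1 h)
  rw [Prod.mk.injEq] at h'
  obtain ⟨h1, h2⟩ := h'
  split_ifs at h2 with a b b
  · exact Fin.ext (by exact_mod_cast h2)
  · have hi : (i : ℕ) = 0 := by omega
    have hj : (j : ℕ) = 0 := by omega
    exact Fin.ext (by omega)
  · have hi : (i : ℕ) = 0 := by omega
    have hj : (j : ℕ) = 0 := by omega
    exact Fin.ext (by omega)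
  · exact Fin.ext (by omega)

/-- two permutations making an injective key monotone agree -/
theorem perm_unique {n : ℕ} {α : Type*} [LinearOrder α] {k : Fin n → α}
    (hk : Function.Injective k) {s t : Equiv.Perm (Fin n)} (hs : Monotone (k ∘ s))
    (ht : Monotone (k ∘ t)) : s = t := by
  have := Tuple.unique_monotone hs ht
  ext i
  have h := congrFun this i
  exact congrArg _ (hk h)

/-- monotone tuples with the same multiset of values agree -/
theorem tuple_unique {n : ℕ} {α : Type*} [LinearOrder α] {p q : Fin n → α}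
    (hp : Monotone p) (hq : Monotone q)
    (h : (univ.val.map p : Multiset α) = univ.val.map q) : p = q := by
  have h2 : List.Perm (List.ofFn p) (List.ofFn q) := by
    rw [← Multiset.coe_eq_coe]
    simpa using h
  exact List.ofFn_injective (h2.eq_of_pairwise' hp.sortedLE_ofFn.pairwise
    hq.sortedLE_ofFn.pairwise)

theorem inj_aux {n : ℕ} {w w' : SP n} {f f' : Fin n → ℕ} (hw : Inv w) (hw' : Inv w')
    (hc : Compat w f) (hc' : Compat w' f')
    (h : (univ.val.map (lab w f) : Multiset (ℤ ×ₗ ℤ)) = univ.val.map (lab w' f')) :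
    w = w' ∧ f = f' := by
  have hl : lab w f = lab w' f' := tuple_unique (lab_mono hc) (lab_mono hc') h
  have hf : f = f' := by
    ext i
    have := congrArg (fun x => (ofLex x).1) (congrFun hl i)
    simpa [lab] using this
  have he : w.2 = w'.2 := by
    ext i
    have h1 := sign_lab hw hc i
    have h2 := sign_lab hw' hc' i
    rw [hl, h2] at h1
    rcases a : w.2 i with _ | _
    · rw [h1.2 a]
    · rcases b : w'.2 i with _ | _
      · rw [h1.1 b] at a; cases a
      · rfl
  have hp : w.1 = w'.1 := by
    have k1 := kap_strict hw hc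
    have k2 := kap_strict hw' hc'
    rw [← hl] at k2
    exact perm_unique (kap_inj _) k1.monotone k2.monotone
  exact ⟨Prod.ext hp he, hf⟩

/-- the label set: `0 ≤ a ≤ r`, `|b| ≤ r`, and `b ≥ 0` if `a = 0` -/
def Good (r : ℕ) (p : ℤ ×ₗ ℤ) : Prop :=
  0 ≤ (ofLex p).1 ∧ (ofLex p).1 ≤ r ∧ -(r : ℤ) ≤ (ofLex p).2 ∧ (ofLex p).2 ≤ r ∧
    ((ofLex p).1 = 0 → 0 ≤ (ofLex p).2)

theorem good_lab {n r : ℕ} {w : SP n} {f : Fin n → ℕ} (hc : Compat w f) (hr : ∀ i, f i ≤ r)
    (i : Fin n) : Good r (lab w f i) := by
  have h1 := hr i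
  have h2 := hr (w.1 i)
  have h3 := hc.2 i
  rcases hi : w.2 i with _ | _
  · rw [lab_false hi]
    unfold Good
    simp only [ofLex_toLex]
    refine ⟨by omega, by omega, by omega, by omega, by omega⟩
  · rw [hi] at h3
    rw [lab_true hi]
    unfold Good
    simp only [ofLex_toLex]
    refine ⟨by omega, by omega, by omega, by omega, ?_⟩
    intro h
    exact absurd (h3 (by omega)) (by simp)

theorem good_tau {r : ℕ} {p : ℤ ×ₗ ℤ} (h : Good r p) : Good r (tau p) := by
  unfold Good tau at *
  obtain ⟨h1, h2, h3, h4, h5⟩ := h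
  split_ifs with h0
  · simp only [ofLex_toLex]
    exact ⟨h0, h4, by omega, h2, fun _ => h1⟩
  · simp only [ofLex_toLex]
    refine ⟨by omega, by omega, by omega, by omega, fun h => by omega⟩

theorem tau_tau {r : ℕ} {p : ℤ ×ₗ ℤ} (h : Good r p) : tau (tau p) = p := by
  unfold Good at h
  obtain ⟨h1, h2, h3, h4, h5⟩ := h
  unfold tau
  by_cases h0 : 0 ≤ (ofLex p).2
  · rw [if_pos h0]
    simp only [ofLex_toLex]
    rw [if_pos h1]
    rfl
  · rw [if_neg h0]
    simp only [ofLex_toLex]
    have h6 : (ofLex p).1 ≠ 0 := fun h => h0 (h5 h)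
    rw [if_neg (by omega)]
    simp only [neg_neg]
    rfl

theorem sign_tau {r : ℕ} {p : ℤ ×ₗ ℤ} (h : Good r p) :
    0 ≤ (ofLex (tau p)).2 ↔ 0 ≤ (ofLex p).2 := by
  unfold Good at h
  obtain ⟨h1, h2, h3, h4, h5⟩ := h
  unfold tau
  by_cases h0 : 0 ≤ (ofLex p).2
  · rw [if_pos h0]
    simp only [ofLex_toLex]
    exact ⟨fun _ => h0, fun _ => h1⟩
  · rw [if_neg h0]
    simp only [ofLex_toLex]
    have h6 : (ofLex p).1 ≠ 0 := fun h => h0 (h5 h)
    constructor
    · intro h; omega
    · intro h; omega

theorem surj_aux {n r : ℕ} {p : Fin n → ℤ ×ₗ ℤ} (hp : Monotone p) (hg : ∀ i, Good r (p i))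
    (ht : (univ.val.map (fun i => tau (p i)) : Multiset (ℤ ×ₗ ℤ)) = univ.val.map p) :
    ∃ (w : SP n) (f : Fin n → ℕ), Inv w ∧ Compat w f ∧ (∀ i, f i ≤ r) ∧ lab w f = p := by
  set s := Tuple.sort (kap p) with hs
  have hm : Monotone (kap p ∘ s) := Tuple.monotone_sort _
  have hst : StrictMono (kap p ∘ s) :=
    hm.strictMono_of_injective ((kap_inj p).comp s.injective)
  -- first component
  have hts : ∀ i, tau (p (s i)) = p i := by
    have h1 : Monotone (fun i => tau (p (s i))) := by
      intro i j hij
      have := hm hij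
      simp only [Function.comp] at this
      unfold kap at this
      rw [Prod.Lex.toLex_le_toLex'] at this
      exact this.1
    have h2 : (fun i => tau (p (s i))) = p := by
      refine tuple_unique h1 hp ?_
      rw [← ht]
      have h3 : (univ.val.map (fun i => tau (p (s i))) : Multiset (ℤ ×ₗ ℤ)) =
          (univ.val.map s).map (fun i => tau (p i)) := by
        rw [Multiset.map_map]; rfl
      rw [h3]
      congr 1
      have := congrArg Finset.val (Finset.map_univ_equiv s)
      simp
    intro i
    exact congrFun h2 i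
  have hps : ∀ i, p (s i) = tau (p i) := by
    intro i
    rw [← hts i, tau_tau (hg _)]
  have hsg : ∀ i, (0 ≤ (ofLex (p (s i))).2 ↔ 0 ≤ (ofLex (p i)).2) := by
    intro i
    rw [hps, sign_tau (hg _)]
  have hps' : ∀ i, tau (p (s.symm i)) = p i := by
    intro i
    rw [← hps, s.apply_symm_apply]
  have hsg' : ∀ i, (0 ≤ (ofLex (p (s.symm i))).2 ↔ 0 ≤ (ofLex (p i)).2) := by
    intro i
    have := hsg (s.symm i)
    rw [s.apply_symm_apply] at this
    exact this.symm
  have htie1 : ∀ i j, i < j → p i = p j → 0 ≤ (ofLex (p i)).2 → s i < s j := by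
    intro i j hij he h0
    have h := hst hij
    simp only [Function.comp] at h
    unfold kap at h
    rw [Prod.Lex.toLex_lt_toLex'] at h
    have h2 := h.2 (by show tau _ = tau _; rw [hts, hts, he])
    simp only at h2
    rw [if_pos ((hsg i).2 h0), if_pos ((hsg j).2 (he ▸ h0))] at h2
    rw [Fin.lt_def]
    exact_mod_cast h2
  have htie2 : ∀ i j, i < j → p i = p j → ¬ 0 ≤ (ofLex (p i)).2 → s j < s i := by
    intro i j hij he h0
    have h := hst hij
    simp only [Function.comp] at h
    unfold kap at h
    rw [Prod.Lex.toLex_lt_toLex'] at h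
    have h2 := h.2 (by show tau _ = tau _; rw [hts, hts, he])
    simp only at h2
    rw [if_neg (fun h => h0 ((hsg i).1 h)), if_neg (fun h => h0 (he ▸ (hsg j).1 h))] at h2
    rw [Fin.lt_def]
    omega
  -- s is an involution
  have hinvm : Monotone (kap p ∘ s.symm) := by
    intro i j hij
    rcases hij.lt_or_eq with hlt | heq
    · simp only [Function.comp]
      unfold kap
      rw [Prod.Lex.toLex_le_toLex']
      refine ⟨?_, ?_⟩
      · show tau _ ≤ tau _
        rw [hps', hps']
        exact hp hij
      · show tau _ = tau _ → _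
        rw [hps', hps']
        intro he
        simp only
        have hne : s.symm i ≠ s.symm j := fun h => hlt.ne (s.symm.injective h)
        have hpp : p (s.symm i) = p (s.symm j) := by
          rw [← tau_tau (hg (s.symm i)), ← tau_tau (hg (s.symm j)), hps', hps', he]
        by_cases h0 : 0 ≤ (ofLex (p i)).2
        · rw [if_pos ((hsg' i).2 h0), if_pos ((hsg' j).2 (he ▸ h0))]
          have : s.symm i ≤ s.symm j := by
            by_contra hcon
            rw [not_le] at hcon
            have := htie1 _ _ hcon hpp.symm ((hsg' j).2 (he ▸ h0))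
            rw [s.apply_symm_apply, s.apply_symm_apply] at this
            exact absurd this (not_lt.2 hij)
          rw [Fin.le_def] at this
          exact_mod_cast this
        · rw [if_neg (fun h => h0 ((hsg' i).1 h)), if_neg (fun h => h0 (he ▸ (hsg' j).1 h))]
          have : s.symm j ≤ s.symm i := by
            by_contra hcon
            rw [not_le] at hcon
            have := htie2 _ _ hcon hpp (fun h => h0 ((hsg' i).1 h))
            rw [s.apply_symm_apply, s.apply_symm_apply] at this
            exact absurd this (not_lt.2 hij)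
          rw [Fin.le_def] at this
          omega
    · rw [heq]
  have hss : s = s.symm := perm_unique (kap_inj p) hm hinvm
  have hs2 : ∀ i, s (s i) = i := by
    intro i
    have h := congrArg (fun t : Equiv.Perm (Fin n) => t (s i)) hss
    simpa using h
  classical
  -- the absolute value of the second label
  have habs : ∀ i, (ofLex (p (s i))).1 = |(ofLex (p i)).2| := by
    intro i
    rw [hps]
    unfold tau
    split_ifs with h0
    · simp only [ofLex_toLex]
      rw [abs_of_nonneg h0]
    · simp only [ofLex_toLex]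
      rw [abs_of_neg (by omega)]
  have hmono1 : ∀ i j, i ≤ j → (ofLex (p i)).1 ≤ (ofLex (p j)).1 := by
    intro i j hij
    have := hp hij
    rw [Prod.Lex.le_iff'] at this
    exact this.1
  refine ⟨(s, fun i => decide (¬ 0 ≤ (ofLex (p i)).2)), fun i => (ofLex (p i)).1.toNat,
    ?_, ?_, ?_, ?_⟩
  · intro i
    refine ⟨hs2 i, ?_⟩
    simp only [decide_eq_decide]
    rw [hsg i]
  · refine ⟨?_, ?_⟩
    · intro i j hij
      unfold key
      rw [Prod.Lex.toLex_lt_toLex']
      simp only
      have hgi := (hg i).1
      have hgj := (hg j).1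
      refine ⟨?_, ?_⟩
      · have := hmono1 i j hij.le
        omega
      · intro he
        have he' : (ofLex (p i)).1 = (ofLex (p j)).1 := by omega
        have hle := hp hij.le
        rw [Prod.Lex.le_iff'] at hle
        have hle2 := hle.2 he'
        unfold val
        simp only [decide_eq_true_eq]
        rcases hle2.lt_or_eq with hlt | heq
        · by_cases a : 0 ≤ (ofLex (p i)).2
          · have b : 0 ≤ (ofLex (p j)).2 := by omega
            rw [if_neg (not_not.2 a), if_neg (not_not.2 b)]
            have : s i < s j := by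
              by_contra hcon
              rw [not_lt] at hcon
              have h1 := hmono1 _ _ hcon
              rw [habs, habs, abs_of_nonneg a, abs_of_nonneg b] at h1
              omega
            rw [Fin.lt_def] at this
            omega
          · rw [if_pos a]
            by_cases b : 0 ≤ (ofLex (p j)).2
            · rw [if_neg (not_not.2 b)]
              omega
            · rw [if_pos b]
              have : s j < s i := by
                by_contra hcon
                rw [not_lt] at hcon
                have h1 := hmono1 _ _ hcon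
                rw [habs, habs, abs_of_neg (by omega), abs_of_neg (by omega)] at h1
                omega
              rw [Fin.lt_def] at this
              omega
        · have hpe : p i = p j := by
            have : ofLex (p i) = ofLex (p j) := Prod.ext he' heq
            simpa using this
          by_cases a : 0 ≤ (ofLex (p i)).2
          · have b : 0 ≤ (ofLex (p j)).2 := by omega
            rw [if_neg (not_not.2 a), if_neg (not_not.2 b)]
            have := htie1 i j hij hpe a
            rw [Fin.lt_def] at this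
            omega
          · have b : ¬ 0 ≤ (ofLex (p j)).2 := by omega
            rw [if_pos a, if_pos b]
            have := htie2 i j hij hpe a
            rw [Fin.lt_def] at this
            omega
    · intro i hi
      simp only at hi ⊢
      have h1 := (hg i).1
      have h2 := (hg i).2.2.2.2 (by omega)
      simp [h2]
  · intro i
    have := (hg i).2.1
    have := (hg i).1
    simp only
    omega
  · funext i
    have h1 := (hg i).1
    have h2 := (hg (s i)).1
    unfold lab
    simp only [decide_eq_true_eq]
    rw [Int.toNat_of_nonneg h1, Int.toNat_of_nonneg h2, habs]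
    by_cases a : 0 ≤ (ofLex (p i)).2
    · rw [if_neg (not_not.2 a), abs_of_nonneg a]
      rfl
    · rw [if_pos a, abs_of_neg (by omega), neg_neg]
      rfl

end Pool.Agent.K4H83.BI
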