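import Pool.Agent.K4H83.BI.Rec

set_option autoImplicit false

/-!
The gamma expansion.
-/

namespace Pool.Agent.K4H83.BI

open Finset PowerSeries

/-- shift of a sequence -/
def S (f : ℕ → ℚ) : ℕ → ℚ
  | 0 => 0
  | k + 1 => f k

/-- the operator corresponding to `2θ+1` -/
def T (m : ℕ) (f : ℕ → ℚ) (k : ℕ) : ℚ := (2 * k + 1) * f k + 4 * (m + 2 - 2 * k) * S f k

/-- the operator corresponding to `(1-x)^2` -/
def D (f : ℕ → ℚ) (k : ℕ) : ℚ := f k - 4 * S f k

def gm : ℕ → ℕ → ℚ
  | 0, k => if k = 0 then 1 else 0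
  | 1, k => if k = 0 then 1 else 0
  | n + 2, k => (T (n + 1) (gm (n + 1)) k + (1 / 2) * T (n + 1) (T n (gm n)) k +
      ((n : ℚ) + 1 / 2) * D (gm n) k) / (n + 2)

theorem T_supp {m : ℕ} {f : ℕ → ℚ} (hf : ∀ k, m < 2 * k → f k = 0) :
    ∀ k, m + 1 < 2 * k → T m f k = 0 := by
  intro k hk
  unfold T
  rw [hf k (by omega)]
  rcases k with _ | k
  · simp [S]
  · simp only [S]
    rcases Nat.lt_or_ge m (2 * k) with h | h
    · rw [hf k h]; ring
    · have : m = 2 * k := by omega
      subst this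
      push_cast
      ring

theorem D_supp {m : ℕ} {f : ℕ → ℚ} (hf : ∀ k, m < 2 * k → f k = 0) :
    ∀ k, m + 2 < 2 * k → D f k = 0 := by
  intro k hk
  unfold D
  rw [hf k (by omega)]
  rcases k with _ | k
  · simp [S]
  · simp only [S]
    rw [hf k (by omega)]; ring

theorem gm_supp : ∀ n k, n < 2 * k → gm n k = 0
  | 0, k => by
    intro h; unfold gm; rw [if_neg (by omega)]
  | 1, k => by
    intro h; unfold gm; rw [if_neg (by omega)]
  | n + 2, k => by
    intro h
    unfold gm
    rw [T_supp (gm_supp (n + 1)) k h, T_supp (T_supp (gm_supp n)) k h, D_supp (gm_supp n) k h]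
    simp

noncomputable def B (m k : ℕ) : PowerSeries ℚ :=
  if 2 * k ≤ m then X ^ k * (1 + X) ^ (m - 2 * k) else 0

noncomputable def U (m : ℕ) (a : PowerSeries ℚ) : PowerSeries ℚ :=
  2 * X * (1 - X) * d⁄dX ℚ a + (1 + (2 * (m : PowerSeries ℚ) + 1) * X) * a

noncomputable def P (m : ℕ) (f : ℕ → ℚ) : PowerSeries ℚ :=
  ∑ k ∈ range (m + 1), C (f k) * B m k

theorem der_aux (k j : ℕ) :
    X * (1 + X) * d⁄dX ℚ (X ^ k * (1 + X) ^ j : PowerSeries ℚ) =
      ((k : PowerSeries ℚ) * (1 + X) + (j : PowerSeries ℚ) * X) * (X ^ k * (1 + X) ^ j) := by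
  induction j with
  | zero =>
    induction k with
    | zero => simp
    | succ k ih =>
      simp only [pow_zero, mul_one] at ih ⊢
      rw [pow_succ, Derivation.leibniz, PowerSeries.derivative_X]
      simp only [smul_eq_mul]
      push_cast
      linear_combination X * ih
  | succ j ih =>
    rw [pow_succ, ← mul_assoc, Derivation.leibniz, map_add, PowerSeries.derivative_X]
    simp only [smul_eq_mul]
    have h1 : d⁄dX ℚ (1 : PowerSeries ℚ) = 0 := Derivation.map_one_eq_zero _
    rw [h1]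
    push_cast
    linear_combination (1 + X) * ih

theorem one_add_X_ne : (1 + X : PowerSeries ℚ) ≠ 0 := by
  intro h
  have := congrArg (coeff 0) h
  simp at this

theorem U_B {m k : ℕ} (h : 2 * k ≤ m) :
    U m (B m k) = (2 * (k : PowerSeries ℚ) + 1) * B (m + 1) k +
      4 * ((m : PowerSeries ℚ) - 2 * k) * B (m + 1) (k + 1) := by
  obtain ⟨j, rfl⟩ := Nat.exists_eq_add_of_le h
  have e1 : B (2 * k + j) k = X ^ k * (1 + X) ^ j := by
    unfold B
    rw [if_pos (by omega)]
    congr 2
    omega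
  have e2 : B (2 * k + j + 1) k = X ^ k * (1 + X) ^ (j + 1) := by
    unfold B
    rw [if_pos (by omega)]
    congr 2
    omega
  have e3 : (1 + X) * (4 * (((2 * k + j : ℕ) : PowerSeries ℚ) - 2 * (k : PowerSeries ℚ)) *
      B (2 * k + j + 1) (k + 1)) =
      4 * (j : PowerSeries ℚ) * X * (X ^ k * (1 + X) ^ j : PowerSeries ℚ) := by
    rcases j with _ | j
    · simp
    · unfold B
      rw [if_pos (by omega)]
      have : 2 * k + (j + 1) + 1 - 2 * (k + 1) = j := by omega
      rw [this]
      push_cast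
      ring
  apply mul_left_cancel₀ one_add_X_ne
  rw [mul_add, e3, e2, e1]
  unfold U
  have hd := der_aux k j
  push_cast
  linear_combination (2 * (1 - X)) * hd

theorem B_zero {m k : ℕ} (h : m < 2 * k) : B m k = 0 := by
  unfold B
  rw [if_neg (by omega)]

theorem DB {m k : ℕ} (h : 2 * k ≤ m) :
    (1 - X) ^ 2 * B m k = B (m + 2) k - 4 * B (m + 2) (k + 1) := by
  unfold B
  rw [if_pos h, if_pos (by omega), if_pos (by omega)]
  obtain ⟨j, rfl⟩ := Nat.exists_eq_add_of_le h
  have e1 : 2 * k + j - 2 * k = j := by omega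
  have e2 : 2 * k + j + 2 - 2 * k = j + 2 := by omega
  have e3 : 2 * k + j + 2 - 2 * (k + 1) = j := by omega
  rw [e1, e2, e3]
  ring

theorem U_add (m : ℕ) (a b : PowerSeries ℚ) : U m (a + b) = U m a + U m b := by
  unfold U
  rw [map_add]
  ring

theorem U_Cmul (m : ℕ) (c : ℚ) (a : PowerSeries ℚ) : U m (C c * a) = C c * U m a := by
  unfold U
  rw [← smul_eq_C_mul, Derivation.map_smul, smul_eq_C_mul, smul_eq_C_mul]
  ring

theorem U_sum (m : ℕ) (s : Finset ℕ) (a : ℕ → PowerSeries ℚ) :
    U m (∑ k ∈ s, a k) = ∑ k ∈ s, U m (a k) := by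
  classical
  induction s using Finset.induction_on with
  | empty => simp [U]
  | insert k s hk ih => rw [Finset.sum_insert hk, Finset.sum_insert hk, U_add, ih]

theorem U_P {m : ℕ} {f : ℕ → ℚ} (hf : ∀ k, m < 2 * k → f k = 0) :
    U m (P m f) = P (m + 1) (T m f) := by
  unfold P
  rw [U_sum]
  have h1 : ∑ k ∈ range (m + 1 + 1), C (T m f k) * B (m + 1) k =
      ∑ k ∈ range (m + 1 + 1), C ((2 * k + 1) * f k) * B (m + 1) k +
      ∑ k ∈ range (m + 1 + 1), C (4 * (m + 2 - 2 * k) * S f k) * B (m + 1) k := by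
    rw [← Finset.sum_add_distrib]
    apply Finset.sum_congr rfl
    intro k _
    unfold T
    rw [map_add]
    ring
  rw [h1, Finset.sum_range_succ (n := m + 1), B_zero (show m + 1 < 2 * (m + 1) by omega), mul_zero,
    add_zero, Finset.sum_range_succ' (n := m + 1)]
  simp only [S, mul_zero, map_zero, zero_mul, add_zero]
  rw [← Finset.sum_add_distrib]
  apply Finset.sum_congr rfl
  intro k _
  rw [U_Cmul]
  rcases Nat.lt_or_ge m (2 * k) with h | h
  · rw [hf k h]; simp
  · rw [U_B h]
    simp only [map_mul, map_add, map_sub, map_one, map_natCast, map_ofNat]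
    push_cast
    ring

theorem D_P {m : ℕ} {f : ℕ → ℚ} (hf : ∀ k, m < 2 * k → f k = 0) :
    (1 - X) ^ 2 * P m f = P (m + 2) (D f) := by
  unfold P
  rw [Finset.mul_sum]
  have h1 : ∑ k ∈ range (m + 2 + 1), C (D f k) * B (m + 2) k =
      ∑ k ∈ range (m + 2 + 1), C (f k) * B (m + 2) k -
      ∑ k ∈ range (m + 2 + 1), C (4 * S f k) * B (m + 2) k := by
    rw [← Finset.sum_sub_distrib]
    apply Finset.sum_congr rfl
    intro k _
    unfold D
    rw [map_sub]
    ring
  rw [h1, Finset.sum_range_succ (n := m + 2), hf (m + 2) (by omega), 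
    Finset.sum_range_succ (n := m + 1), hf (m + 1) (by omega),
    Finset.sum_range_succ' (n := m + 2)]
  simp only [S, mul_zero, map_zero, zero_mul, add_zero]
  rw [Finset.sum_range_succ (n := m + 1), hf (m + 1) (by omega)]
  simp only [mul_zero, map_zero, zero_mul, add_zero]
  rw [← Finset.sum_sub_distrib]
  apply Finset.sum_congr rfl
  intro k _
  rcases Nat.lt_or_ge m (2 * k) with h | h
  · rw [hf k h]; simp
  · rw [mul_left_comm, DB h]
    simp only [map_mul, map_ofNat]
    ring

theorem P_add (m : ℕ) (f g : ℕ → ℚ) : P m (fun k => f k + g k) = P m f + P m g := by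
  unfold P
  rw [← Finset.sum_add_distrib]
  apply Finset.sum_congr rfl
  intro k _
  rw [map_add]; ring

theorem P_smul (m : ℕ) (c : ℚ) (f : ℕ → ℚ) : P m (fun k => c * f k) = C c * P m f := by
  unfold P
  rw [Finset.mul_sum]
  apply Finset.sum_congr rfl
  intro k _
  rw [map_mul]; ring

/-- the generating function in `r` -/
noncomputable def H (n : ℕ) : PowerSeries ℚ := PowerSeries.mk (fun r => (hh n r : ℚ))

/-- `2θ+1` -/
noncomputable def L (h : PowerSeries ℚ) : PowerSeries ℚ := 2 * X * d⁄dX ℚ h + h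

theorem L_mul {m : ℕ} {h a : PowerSeries ℚ} (ha : h * (1 - X) ^ (m + 1) = a) :
    L h * (1 - X) ^ (m + 2) = U m a := by
  subst ha
  unfold L U
  rw [Derivation.leibniz, Derivation.leibniz_pow, map_sub, PowerSeries.derivative_X]
  have h1 : d⁄dX ℚ (1 : PowerSeries ℚ) = 0 := Derivation.map_one_eq_zero _
  rw [h1]
  simp only [smul_eq_mul, nsmul_eq_mul, Nat.add_sub_cancel]
  push_cast
  ring

theorem coeff_XD (h : PowerSeries ℚ) (r : ℕ) :
    coeff r (X * d⁄dX ℚ h) = (r : ℚ) * coeff r h := by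
  rcases r with _ | r
  · simp
  · rw [PowerSeries.coeff_succ_X_mul, PowerSeries.coeff_derivative]
    push_cast; ring

theorem coeff_L (h : PowerSeries ℚ) (r : ℕ) : coeff r (L h) = (2 * r + 1) * coeff r h := by
  unfold L
  have h2 : (2 : PowerSeries ℚ) = C 2 := (map_ofNat C 2).symm
  rw [map_add, mul_assoc, h2, coeff_C_mul, coeff_XD]
  ring

theorem H_rec (n : ℕ) : C ((n : ℚ) + 2) * H (n + 2) =
    L (H (n + 1)) + C (1 / 2) * L (L (H n)) + C ((n : ℚ) + 1 / 2) * H n := by
  ext r
  rw [(coeff r).map_add, (coeff r).map_add]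
  simp only [coeff_C_mul, coeff_L]
  unfold H
  simp only [PowerSeries.coeff_mk]
  rw [hh_rec]
  ring

theorem H_zero : H 0 * (1 - X) ^ 1 = 1 := by
  have : H 0 = PowerSeries.mk 1 := by
    ext r
    unfold H hh
    simp
  rw [this, pow_one]
  exact PowerSeries.mk_one_mul_one_sub_eq_one ℚ

theorem H_one : H 1 * (1 - X) ^ 2 = 1 + X := by
  have h0 : H 1 = L (H 0) := by
    ext r
    rw [coeff_L]
    unfold H hh
    simp
  rw [h0, L_mul (m := 0) H_zero]
  unfold U
  have h1 : d⁄dX ℚ (1 : PowerSeries ℚ) = 0 := Derivation.map_one_eq_zero _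
  rw [h1]
  push_cast
  ring

theorem H_eq (n : ℕ) : H n * (1 - X) ^ (n + 1) = P n (gm n) := by
  induction n using Nat.strong_induction_on with
  | _ n ih =>
    rcases n with _ | _ | n
    · rw [zero_add, H_zero]
      unfold P B gm
      simp
    · rw [zero_add, H_one]
      unfold P B gm
      simp [Finset.sum_range_succ]
    · have i0 := ih n (by omega)
      have i1 := ih (n + 1) (by omega)
      have s0 := gm_supp n
      have s1 := gm_supp (n + 1)
      have k1 := L_mul i1
      have k0 := L_mul (L_mul i0)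
      rw [U_P s1] at k1
      rw [U_P s0, U_P (T_supp s0)] at k0
      have hD := D_P s0
      have hrec := H_rec n
      have hc : (C ((n : ℚ) + 2) : PowerSeries ℚ) ≠ 0 := by
        intro h
        have := congrArg (coeff 0) h
        simp at this
        have h2 : (0 : ℚ) ≤ n := Nat.cast_nonneg n
        linarith
      apply mul_left_cancel₀ hc
      rw [← P_smul]
      have e : (fun k => ((n : ℚ) + 2) * gm (n + 2) k) = (fun k =>
          (T (n + 1) (gm (n + 1)) k + (1 / 2) * T (n + 1) (T n (gm n)) k) +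
          ((n : ℚ) + 1 / 2) * D (gm n) k) := by
        funext k
        rw [gm]
        have h2 : (0 : ℚ) ≤ n := Nat.cast_nonneg n
        field_simp
      rw [show n + 1 + 1 = n + 2 from rfl, e, P_add, P_add, P_smul, P_smul, ← hD]
      rw [show n + 1 + 1 = n + 2 from rfl] at k1 k0
      rw [← k1, ← k0, ← i0, ← mul_assoc, hrec]
      ring

end Pool.Agent.K4H83.BI
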