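import Pool.Agent.K4H83.BI.Count

set_option autoImplicit false

/-!
Counting the signed involutions with fillings: reduction to multisets and the closed form.
-/

namespace Pool.Agent.K4H83.BI

open Finset

open Classical in
/-- pairs (signed involution, compatible filling bounded by `r`) -/
noncomputable def XX (n r : ℕ) : Finset (SP n × (Fin n → ℕ)) :=
  ((univ : Finset (SP n)) ×ˢ (Finset.Iic (fun _ : Fin n => r))).filter
    (fun x => Inv x.1 ∧ Compat x.1 x.2)

theorem mem_XX {n r : ℕ} {x : SP n × (Fin n → ℕ)} :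
    x ∈ XX n r ↔ (∀ i, x.2 i ≤ r) ∧ Inv x.1 ∧ Compat x.1 x.2 := by
  unfold XX
  simp [Pi.le_def]

def YY (n r : ℕ) : Set (Multiset (ℤ ×ₗ ℤ)) :=
  {S | S.card = n ∧ (∀ p ∈ S, Good r p) ∧ S.map tau = S}

theorem exists_sorted {α : Type*} [LinearOrder α] {n : ℕ} (S : Multiset α) (hS : S.card = n) :
    ∃ p : Fin n → α, Monotone p ∧ (univ.val.map p : Multiset α) = S := by
  obtain ⟨l, hl, hlS⟩ : ∃ l : List α, l.Pairwise (· ≤ ·) ∧ (l : Multiset α) = S :=
    ⟨S.sort, Multiset.pairwise_sort _ _, Multiset.sort_eq _ _⟩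
  subst hlS
  have hn : l.length = n := by simpa using hS
  subst hn
  refine ⟨l.get, ?_, ?_⟩
  · intro i j hij
    rcases hij.lt_or_eq with hlt | heq
    · exact (List.pairwise_iff_get.1 hl) _ _ hlt
    · rw [heq]
  · rw [Fin.univ_val_map, List.ofFn_get]

theorem card_XX (n r : ℕ) : (XX n r).card = (YY n r).ncard := by
  have himg : (fun x : SP n × (Fin n → ℕ) => (univ.val.map (lab x.1 x.2) : Multiset (ℤ ×ₗ ℤ)))
      '' (XX n r : Set (SP n × (Fin n → ℕ))) = YY n r := by
    ext S
    constructor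
    · rintro ⟨⟨w, f⟩, hx, rfl⟩
      rw [Finset.mem_coe, mem_XX] at hx
      obtain ⟨hr, hw, hc⟩ := hx
      refine ⟨by simp, ?_, ?_⟩
      · intro p hp
        simp only [Multiset.mem_map] at hp
        obtain ⟨i, _, rfl⟩ := hp
        exact good_lab hc hr i
      · rw [Multiset.map_map]
        have h1 : (tau ∘ lab w f) = (lab w f) ∘ w.1 := by
          funext i
          exact tau_lab hw hc i
        simp only
        rw [h1, ← Multiset.map_map]
        congr 1
        simp
    · rintro ⟨h1, h2, h3⟩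
      obtain ⟨p, hp, hpS⟩ := exists_sorted S h1
      obtain ⟨w, f, hw, hc, hr, hl⟩ := surj_aux (r := r) hp (by
        intro i
        apply h2
        rw [← hpS]
        exact Multiset.mem_map_of_mem _ (by simp)) (by
        rw [← hpS, Multiset.map_map] at h3
        exact h3)
      refine ⟨(w, f), ?_, ?_⟩
      · rw [Finset.mem_coe, mem_XX]
        exact ⟨hr, hw, hc⟩
      · simp only
        rw [hl, hpS]
  rw [← himg, Set.ncard_image_of_injOn, Set.ncard_coe_finset]
  rintro ⟨w, f⟩ hx ⟨w', f'⟩ hx' h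
  rw [Finset.mem_coe, mem_XX] at hx hx'
  have := inj_aux hx.2.1 hx'.2.1 hx.2.2 hx'.2.2 h
  exact Prod.ext this.1 this.2

open Classical in
/-- fixed labels, `|b| = a` -/
noncomputable def FF (r : ℕ) : Finset (ℤ ×ₗ ℤ) :=
  (Finset.Icc (-(r : ℤ)) r).image (fun b => toLex (|b|, b))

open Classical in
/-- representatives of the 2-element orbits, `|b| < a` -/
noncomputable def EE (r : ℕ) : Finset (ℤ ×ₗ ℤ) :=
  ((Finset.Icc (1 : ℤ) r).sigma (fun a => Finset.Ioo (-a) a)).image (fun x => toLex (x.1, x.2))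

theorem mem_FF {r : ℕ} {p : ℤ ×ₗ ℤ} : p ∈ FF r ↔ Good r p ∧ |(ofLex p).2| = (ofLex p).1 := by
  unfold FF Good
  simp only [Finset.mem_image, Finset.mem_Icc]
  constructor
  · rintro ⟨b, hb, rfl⟩
    simp only [ofLex_toLex]
    have h1 := abs_nonneg b
    have h2 : |b| ≤ r := abs_le.2 hb
    refine ⟨⟨h1, h2, hb.1, hb.2, ?_⟩, trivial⟩
    intro h
    rw [abs_eq_zero] at h
    omega
  · rintro ⟨h1, h2⟩
    refine ⟨(ofLex p).2, ⟨h1.2.2.1, h1.2.2.2.1⟩, ?_⟩
    rw [h2]
    rfl

theorem mem_EE {r : ℕ} {p : ℤ ×ₗ ℤ} : p ∈ EE r ↔ Good r p ∧ |(ofLex p).2| < (ofLex p).1 := by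
  unfold EE Good
  simp only [Finset.mem_image, Finset.mem_sigma, Finset.mem_Icc, Finset.mem_Ioo]
  constructor
  · rintro ⟨⟨a, b⟩, hb, rfl⟩
    simp only [ofLex_toLex] at hb ⊢
    refine ⟨⟨by omega, by omega, by omega, by omega, by omega⟩, ?_⟩
    rw [abs_lt]
    exact hb.2
  · rintro ⟨h1, h2⟩
    rw [abs_lt] at h2
    refine ⟨⟨(ofLex p).1, (ofLex p).2⟩, ⟨⟨?_, h1.2.1⟩, h2⟩, ?_⟩
    · show 1 ≤ (ofLex p).1
      omega
    · rfl

theorem card_FF (r : ℕ) : (FF r).card = 2 * r + 1 := by
  unfold FF
  rw [Finset.card_image_of_injective]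
  · simp
    omega
  · intro a b h
    have := congrArg (fun x => (ofLex x).2) h
    simpa using this

theorem card_EE (r : ℕ) : (EE r).card = r ^ 2 := by
  unfold EE
  rw [Finset.card_image_of_injective]
  · rw [Finset.card_sigma]
    simp only [Int.card_Ioo]
    induction r with
    | zero => simp
    | succ m ih =>
      have e : Finset.Icc (1 : ℤ) ((m + 1 : ℕ) : ℤ) =
          insert ((m : ℤ) + 1) (Finset.Icc (1 : ℤ) (m : ℤ)) := by
        ext x
        simp only [Finset.mem_insert, Finset.mem_Icc]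
        push_cast
        omega
      rw [e, Finset.sum_insert (by simp), ih]
      have : ((m : ℤ) + 1 - -((m : ℤ) + 1) - 1).toNat = 2 * m + 1 := by omega
      rw [this]
      ring
  · rintro ⟨a, b⟩ ⟨c, d⟩ h
    have h1 := congrArg (fun x => (ofLex x).1) h
    have h2 := congrArg (fun x => (ofLex x).2) h
    simp only [ofLex_toLex] at h1 h2
    subst h1; subst h2; rfl

theorem good_cases {r : ℕ} {p : ℤ ×ₗ ℤ} (h : Good r p) :
    |(ofLex (tau p)).2| = (ofLex p).1 ∧ (ofLex (tau p)).1 = |(ofLex p).2| := by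
  unfold Good at h
  obtain ⟨h1, h2, h3, h4, h5⟩ := h
  unfold tau
  split_ifs with h0
  · simp only [ofLex_toLex]
    rw [abs_of_nonneg h1, abs_of_nonneg h0]
    exact ⟨rfl, rfl⟩
  · simp only [ofLex_toLex]
    rw [abs_neg, abs_of_nonneg h1, abs_of_neg (by omega)]
    exact ⟨rfl, rfl⟩

theorem tau_fix {r : ℕ} {p : ℤ ×ₗ ℤ} (h : p ∈ FF r) : tau p = p := by
  rw [mem_FF] at h
  obtain ⟨h, h6⟩ := h
  unfold Good at h
  obtain ⟨h1, h2, h3, h4, h5⟩ := h
  unfold tau
  split_ifs with h0
  · rw [abs_of_nonneg h0] at h6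
    have : ((ofLex p).2, (ofLex p).1) = ofLex p := Prod.ext h6 h6.symm
    rw [this]; rfl
  · rw [abs_of_neg (by omega)] at h6
    have : (-(ofLex p).2, -(ofLex p).1) = ofLex p := Prod.ext h6 (by simp only; omega)
    rw [this]; rfl

/-- the data: a multiset of fixed labels and a multiset of orbit representatives -/
abbrev ZZ (n r : ℕ) : Type :=
  Σ j : Fin (n / 2 + 1), Sym {x // x ∈ FF r} (n - 2 * j) × Sym {x // x ∈ EE r} j

def GG {n r : ℕ} (z : ZZ n r) : Multiset (ℤ ×ₗ ℤ) :=
  (z.2.1 : Multiset {x // x ∈ FF r}).map Subtype.val +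
    (z.2.2 : Multiset {x // x ∈ EE r}).map Subtype.val +
    ((z.2.2 : Multiset {x // x ∈ EE r}).map Subtype.val).map tau

theorem GG_inj {n r : ℕ} : Function.Injective (GG : ZZ n r → Multiset (ℤ ×ₗ ℤ)) := by
  classical
  have hf1 : ∀ z : ZZ n r, (GG z).filter (fun p => |(ofLex p).2| = (ofLex p).1) =
      (z.2.1 : Multiset {x // x ∈ FF r}).map Subtype.val := by
    intro z
    unfold GG
    rw [Multiset.filter_add, Multiset.filter_add]
    rw [Multiset.filter_eq_self.2, Multiset.filter_eq_nil.2, Multiset.filter_eq_nil.2]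
    · simp
    · intro p hp
      simp only [Multiset.mem_map] at hp
      obtain ⟨q, ⟨⟨q', hq'⟩, _, rfl⟩, rfl⟩ := hp
      rw [mem_EE] at hq'
      have := good_cases hq'.1
      simp only
      intro h
      rw [this.1, this.2] at h
      omega
    · intro p hp
      simp only [Multiset.mem_map] at hp
      obtain ⟨⟨q', hq'⟩, _, rfl⟩ := hp
      rw [mem_EE] at hq'
      exact hq'.2.ne
    · intro p hp
      simp only [Multiset.mem_map] at hp
      obtain ⟨⟨q', hq'⟩, _, rfl⟩ := hp
      rw [mem_FF] at hq'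
      exact hq'.2
  have hf2 : ∀ z : ZZ n r, (GG z).filter (fun p => |(ofLex p).2| < (ofLex p).1) =
      (z.2.2 : Multiset {x // x ∈ EE r}).map Subtype.val := by
    intro z
    unfold GG
    rw [Multiset.filter_add, Multiset.filter_add]
    rw [Multiset.filter_eq_nil.2, Multiset.filter_eq_self.2, Multiset.filter_eq_nil.2]
    · simp
    · intro p hp
      simp only [Multiset.mem_map] at hp
      obtain ⟨q, ⟨⟨q', hq'⟩, _, rfl⟩, rfl⟩ := hp
      rw [mem_EE] at hq'
      have := good_cases hq'.1
      simp only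
      intro h
      rw [this.1, this.2] at h
      omega
    · intro p hp
      simp only [Multiset.mem_map] at hp
      obtain ⟨⟨q', hq'⟩, _, rfl⟩ := hp
      rw [mem_EE] at hq'
      exact hq'.2
    · intro p hp
      simp only [Multiset.mem_map] at hp
      obtain ⟨⟨q', hq'⟩, _, rfl⟩ := hp
      rw [mem_FF] at hq'
      have := hq'.2
      simp only
      omega
  rintro ⟨j, a, b⟩ ⟨j', a', b'⟩ h
  have h1 := hf2 ⟨j, a, b⟩
  rw [h, hf2 ⟨j', a', b'⟩] at h1
  have h2 := hf1 ⟨j, a, b⟩
  rw [h, hf1 ⟨j', a', b'⟩] at h2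
  simp only at h1 h2
  have h1' := Multiset.map_injective Subtype.val_injective h1
  have h2' := Multiset.map_injective Subtype.val_injective h2
  have hj : j = j' := by
    have := congrArg Multiset.card h1'
    simp at this
    exact Fin.ext this.symm
  subst hj
  have ha : a = a' := Subtype.ext h2'.symm
  have hb : b = b' := Subtype.ext h1'.symm
  rw [ha, hb]

theorem lift_sym {α : Type*} (s : Finset α) (S : Multiset α) (h : ∀ p ∈ S, p ∈ s) {k : ℕ}
    (hk : S.card = k) :
    ∃ T : Sym {x // x ∈ s} k, (T : Multiset {x // x ∈ s}).map Subtype.val = S := by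
  have hc : (S.pmap Subtype.mk h).card = k := by simpa using hk
  refine ⟨⟨S.pmap Subtype.mk h, hc⟩, ?_⟩
  show (S.pmap Subtype.mk h).map Subtype.val = S
  rw [Multiset.map_pmap]
  have := Multiset.pmap_eq_map (fun x : α => x ∈ s) (fun a => a) S h
  rw [Multiset.map_id'] at this
  exact this

theorem GG_range {n r : ℕ} : Set.range (GG : ZZ n r → Multiset (ℤ ×ₗ ℤ)) = YY n r := by
  classical
  ext S
  constructor
  · rintro ⟨⟨j, a, b⟩, rfl⟩
    unfold GG
    refine ⟨?_, ?_, ?_⟩
    · simp
      have := j.2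
      omega
    · intro p hp
      simp only [Multiset.mem_add, Multiset.mem_map] at hp
      rcases hp with (⟨q, _, rfl⟩ | ⟨q, _, rfl⟩) | ⟨_, ⟨q, _, rfl⟩, rfl⟩
      · exact (mem_FF.1 q.2).1
      · exact (mem_EE.1 q.2).1
      · exact good_tau (mem_EE.1 q.2).1
    · simp only [Multiset.map_add]
      have e1 : (((a : Multiset {x // x ∈ FF r}).map Subtype.val).map tau) =
          (a : Multiset {x // x ∈ FF r}).map Subtype.val := by
        rw [Multiset.map_map]
        apply Multiset.map_congr rfl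
        intro x _
        exact tau_fix x.2
      have e2 : ((((b : Multiset {x // x ∈ EE r}).map Subtype.val).map tau).map tau) =
          (b : Multiset {x // x ∈ EE r}).map Subtype.val := by
        rw [Multiset.map_map, Multiset.map_map]
        apply Multiset.map_congr rfl
        intro x _
        exact tau_tau (mem_EE.1 x.2).1
      rw [e1, e2]
      rw [add_assoc, add_assoc]
      congr 1
      rw [add_comm]
  · rintro ⟨h1, h2, h3⟩
    set S1 := S.filter (fun p => |(ofLex p).2| = (ofLex p).1) with hS1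
    set S2 := S.filter (fun p => |(ofLex p).2| < (ofLex p).1) with hS2
    set S3 := S.filter (fun p => (ofLex p).1 < |(ofLex p).2|) with hS3
    have hdec : S = S1 + S2 + S3 := by
      have e1 := Multiset.filter_add_not (fun p : ℤ ×ₗ ℤ => |(ofLex p).2| = (ofLex p).1) S
      have e2 := Multiset.filter_add_not (fun p : ℤ ×ₗ ℤ => |(ofLex p).2| < (ofLex p).1)
        (S.filter (fun p => ¬ |(ofLex p).2| = (ofLex p).1))
      rw [Multiset.filter_filter, Multiset.filter_filter] at e2
      have e3 : S.filter (fun p : ℤ ×ₗ ℤ => |(ofLex p).2| < (ofLex p).1 ∧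
          ¬ |(ofLex p).2| = (ofLex p).1) = S2 := by
        apply Multiset.filter_congr
        intro x _
        omega
      have e4 : S.filter (fun p : ℤ ×ₗ ℤ => ¬ |(ofLex p).2| < (ofLex p).1 ∧
          ¬ |(ofLex p).2| = (ofLex p).1) = S3 := by
        apply Multiset.filter_congr
        intro x _
        omega
      rw [e3, e4] at e2
      rw [← e2, ← add_assoc] at e1
      exact e1.symm
    have h32 : S3 = S2.map tau := by
      rw [hS3, hS2]
      conv_lhs => rw [← h3]
      rw [Multiset.filter_map]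
      congr 1
      apply Multiset.filter_congr
      intro x hx
      have := good_cases (h2 x hx)
      simp only [Function.comp]
      rw [this.1, this.2]
    obtain ⟨T1, hT1⟩ := lift_sym (FF r) S1 (by
      intro p hp
      rw [hS1, Multiset.mem_filter] at hp
      rw [mem_FF]
      exact ⟨h2 p hp.1, hp.2⟩) (k := n - 2 * S2.card) (by
      have := congrArg Multiset.card hdec
      rw [h32] at this
      simp only [Multiset.card_add, Multiset.card_map] at this
      omega)
    obtain ⟨T2, hT2⟩ := lift_sym (EE r) S2 (by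
      intro p hp
      rw [hS2, Multiset.mem_filter] at hp
      rw [mem_EE]
      exact ⟨h2 p hp.1, hp.2⟩) (k := S2.card) rfl
    have hlt : S2.card < n / 2 + 1 := by
      have := congrArg Multiset.card hdec
      rw [h32] at this
      simp only [Multiset.card_add, Multiset.card_map] at this
      omega
    refine ⟨⟨⟨S2.card, hlt⟩, T1, T2⟩, ?_⟩
    unfold GG
    simp only
    rw [hT1, hT2, ← h32]
    exact hdec.symm

theorem card_main (n r : ℕ) : (XX n r).card =
    ∑ j ∈ range (n / 2 + 1), (2 * r + 1).multichoose (n - 2 * j) * (r ^ 2).multichoose j := by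
  classical
  rw [card_XX, ← GG_range, ← Set.image_univ, Set.ncard_image_of_injective _ GG_inj,
    Set.ncard_univ, Nat.card_eq_fintype_card, Fintype.card_sigma, Finset.sum_range]
  apply Finset.sum_congr rfl
  intro j _
  rw [Fintype.card_prod, Sym.card_sym_eq_multichoose, Sym.card_sym_eq_multichoose]
  simp only [Fintype.card_coe]
  rw [card_FF, card_EE]

end Pool.Agent.K4H83.BI
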