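import Pool.Agent.K4H83.BI.Multi

set_option autoImplicit false

/-!
Counting fillings compatible with one signed permutation.
-/

namespace Pool.Agent.K4H83.BI

open Finset

def Chain (n : ℕ) (s : ℕ → ℕ) (f : Fin n → ℕ) : Prop :=
  (∀ i : Fin n, i.val = 0 → s 0 ≤ f i) ∧ ∀ i j : Fin n, j.val = i.val + 1 → f i + s j.val ≤ f j

instance (n : ℕ) (s : ℕ → ℕ) : DecidablePred (Chain n s) := by
  intro f
  unfold Chain
  infer_instance

theorem chain_mono {n : ℕ} {s : ℕ → ℕ} {f : Fin n → ℕ} (h : Chain n s f) : Monotone f := by
  have key : ∀ d : ℕ, ∀ i j : Fin n, j.val = i.val + d → f i ≤ f j := by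
    intro d
    induction d with
    | zero =>
      intro i j hij
      have : i = j := Fin.ext (by omega)
      rw [this]
    | succ d ih =>
      intro i j hij
      have hlt : i.val + d < n := by have := j.2; omega
      have h1 := ih i ⟨i.val + d, hlt⟩ rfl
      have h2 := h.2 ⟨i.val + d, hlt⟩ j (by simp only; omega)
      omega
  intro i j hij
  exact key (j.val - i.val) i j (by have : i.val ≤ j.val := hij; omega)

def NN (n : ℕ) (s : ℕ → ℕ) (r : ℕ) : ℕ :=
  ((Finset.Iic (fun _ : Fin n => r)).filter (Chain n s)).card

theorem NN_last (n : ℕ) (s : ℕ → ℕ) (r t : ℕ) (ht : t ≤ r) :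
    ((Finset.Iic (fun _ : Fin (n + 1) => r)).filter
      (fun f => Chain (n + 1) s f ∧ f (Fin.last n) = t)).card =
      if s n ≤ t then NN n s (t - s n) else 0 := by
  split_ifs with hs
  · unfold NN
    refine Finset.card_bij' (fun f _ => fun i => f i.castSucc)
      (fun g _ => Fin.snoc (α := fun _ => ℕ) g t) ?_ ?_ ?_ ?_
    · intro f hf
      simp only [Finset.mem_filter, Finset.mem_Iic] at hf ⊢
      obtain ⟨hf1, hf2, hf3⟩ := hf
      have hm := chain_mono hf2
      refine ⟨?_, ?_, ?_⟩
      · intro i
        simp only
        have hn : 0 < n := i.pos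
        have h1 : f i.castSucc ≤ f ⟨n - 1, by omega⟩ := hm (by
          rw [Fin.le_def]
          have := i.2
          simp only [Fin.val_castSucc]
          omega)
        have h2 := hf2.2 ⟨n - 1, by omega⟩ (Fin.last n) (by simp only [Fin.val_last]; omega)
        simp only [Fin.val_last] at h2
        rw [hf3] at h2
        omega
      · intro i hi
        exact hf2.1 i.castSucc hi
      · intro i j hij
        exact hf2.2 i.castSucc j.castSucc hij
    · intro g hg
      simp only [Finset.mem_filter, Finset.mem_Iic] at hg ⊢
      obtain ⟨hg1, hg2⟩ := hg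
      refine ⟨?_, ⟨?_, ?_⟩, ?_⟩
      · intro i
        refine Fin.lastCases ?_ (fun j => ?_) i
        · simp only [Fin.snoc_last]
          exact ht
        · simp only [Fin.snoc_castSucc]
          have := hg1 j
          simp only at this
          omega
      · intro i
        refine Fin.lastCases ?_ (fun j => ?_) i
        · intro h
          simp only [Fin.val_last] at h
          subst h
          simp only [Fin.snoc_last]
          exact hs
        · intro h
          simp only [Fin.snoc_castSucc]
          exact hg2.1 j h
      · intro i j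
        refine Fin.lastCases ?_ (fun j' => ?_) j
        · refine Fin.lastCases ?_ (fun i' => ?_) i
          · intro h; simp at h
          · intro h
            simp only [Fin.snoc_last, Fin.snoc_castSucc, Fin.val_last]
            have := hg1 i'
            simp only at this
            omega
        · refine Fin.lastCases ?_ (fun i' => ?_) i
          · intro h
            simp only [Fin.val_castSucc, Fin.val_last] at h
            have := j'.2
            omega
          · intro h
            simp only [Fin.snoc_castSucc]
            exact hg2.2 i' j' h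
      · simp only [Fin.snoc_last]
    · intro f hf
      simp only [Finset.mem_filter, Finset.mem_Iic] at hf
      obtain ⟨hf1, hf2, hf3⟩ := hf
      funext i
      refine Fin.lastCases ?_ (fun j => ?_) i
      · simp only [Fin.snoc_last]; exact hf3.symm
      · simp only [Fin.snoc_castSucc]
    · intro g hg
      funext i
      simp only [Fin.snoc_castSucc]
  · rw [Finset.card_eq_zero, Finset.filter_eq_empty_iff]
    intro f hf
    rintro ⟨h1, h2⟩
    apply hs
    rcases Nat.eq_zero_or_pos n with hn | hn
    · subst hn
      rw [← h2]
      exact h1.1 _ rfl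
    · have h3 := h1.2 ⟨n - 1, by omega⟩ (Fin.last n) (by simp only [Fin.val_last]; omega)
      simp only [Fin.val_last] at h3
      omega

theorem NN_succ (n : ℕ) (s : ℕ → ℕ) (r : ℕ) :
    NN (n + 1) s r = ∑ t ∈ range (r + 1), if s n ≤ t then NN n s (t - s n) else 0 := by
  unfold NN
  rw [Finset.card_eq_sum_card_fiberwise (f := fun f : Fin (n + 1) → ℕ => f (Fin.last n))
    (t := range (r + 1))]
  · apply Finset.sum_congr rfl
    intro t ht
    rw [Finset.mem_range] at ht
    rw [Finset.filter_filter]
    exact NN_last n s r t (by omega)
  · intro f hf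
    simp only [Finset.coe_filter, Finset.mem_Iic, Set.mem_setOf_eq] at hf
    simp only [Finset.coe_range, Set.mem_Iio]
    have := hf.1 (Fin.last n)
    simp only at this
    omega

open PowerSeries in
theorem NN_gf (n : ℕ) (s : ℕ → ℕ) :
    (PowerSeries.mk (fun r => (NN n s r : ℚ))) * (1 - X) ^ (n + 1) =
      X ^ (∑ j ∈ range n, s j) := by
  induction n with
  | zero =>
    have : ∀ r, NN 0 s r = 1 := by
      intro r
      unfold NN
      rw [Finset.card_eq_one]
      refine ⟨fun i => i.elim0, ?_⟩
      ext f
      simp only [Finset.mem_filter, Finset.mem_Iic, Finset.mem_singleton]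
      constructor
      · intro _; funext i; exact i.elim0
      · intro h
        refine ⟨fun i => i.elim0, fun i => i.elim0, fun i => i.elim0⟩
    simp only [this, Nat.cast_one, zero_add, pow_one, Finset.range_zero, Finset.sum_empty,
      pow_zero]
    exact PowerSeries.mk_one_mul_one_sub_eq_one ℚ
  | succ n ih =>
    have h1 : (PowerSeries.mk (fun r => (NN (n + 1) s r : ℚ))) * (1 - X) =
        X ^ (s n) * PowerSeries.mk (fun r => (NN n s r : ℚ)) := by
      ext r
      rw [mul_sub, mul_one, map_sub, PowerSeries.coeff_mk]
      rw [PowerSeries.coeff_X_pow_mul']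
      simp only [PowerSeries.coeff_mk]
      rcases r with _ | r
      · rw [NN_succ]
        simp
      · rw [PowerSeries.coeff_succ_mul_X, PowerSeries.coeff_mk, NN_succ n s (r + 1),
          Finset.sum_range_succ, ← NN_succ]
        push_cast
        simp
    rw [pow_succ, mul_comm ((1 - X) ^ (n + 1) : PowerSeries ℚ), ← mul_assoc, h1, mul_assoc, ih,
      ← pow_add, Finset.sum_range_succ, add_comm]

/-- the strictness pattern of a signed permutation -/
def sw {n : ℕ} (w : SP n) (j : ℕ) : ℕ :=
  if h : j < n then
    (if j = 0 then (if w.2 ⟨j, h⟩ = true then 1 else 0)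
      else (if val w ⟨j, h⟩ < val w ⟨j - 1, by omega⟩ then 1 else 0))
  else 0

theorem val_inj {n : ℕ} {w : SP n} {i j : Fin n} (h : val w i = val w j) : i = j := by
  have : w.1 i = w.1 j := by
    unfold val at h
    split_ifs at h with a b b
    · exact Fin.ext (by omega)
    · omega
    · omega
    · exact Fin.ext (by omega)
  exact w.1.injective this

theorem compat_iff {n : ℕ} {w : SP n} {f : Fin n → ℕ} : Compat w f ↔ Chain n (sw w) f := by
  constructor
  · intro hc
    refine ⟨?_, ?_⟩
    · intro i hi
      have h0 : (0 : ℕ) < n := by have := i.2; omega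
      have hi' : i = ⟨0, h0⟩ := Fin.ext hi
      unfold sw
      rw [dif_pos h0, if_pos rfl]
      split_ifs with a
      · rw [hi']
        have := hc.2 ⟨0, h0⟩
        rw [a] at this
        by_contra hcon
        exact absurd (this (by omega)) (by simp)
      · omega
    · intro i j hij
      have hj0 : j.val ≠ 0 := by omega
      unfold sw
      rw [dif_pos j.2, if_neg hj0]
      have hi' : (⟨j.val - 1, by omega⟩ : Fin n) = i := Fin.ext (by simp only; omega)
      rw [hi']
      have hlt : i < j := by rw [Fin.lt_def]; omega
      have hm := mono_of_compat hc hlt.le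
      split_ifs with a
      · by_contra hcon
        have := val_lt_of_compat hc hlt (by omega)
        simp only [Fin.eta] at a
        omega
      · omega
  · intro hc
    have hm := chain_mono hc
    have hsm : StrictMono (key w f) := by
      rcases n with _ | n
      · intro i; exact i.elim0
      · rw [Fin.strictMono_iff_lt_succ]
        intro i
        have h1 := hc.2 i.castSucc i.succ (by simp)
        unfold sw at h1
        rw [dif_pos i.succ.2, if_neg (by simp)] at h1
        have hi' : (⟨(i.succ).val - 1, by omega⟩ : Fin (n + 1)) = i.castSucc :=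
          Fin.ext (by simp)
        rw [hi'] at h1
        simp only [Fin.eta] at h1
        unfold key
        rw [Prod.Lex.toLex_lt_toLex']
        simp only
        have h2 : f i.castSucc ≤ f i.succ := hm (by rw [Fin.le_def]; simp)
        refine ⟨by exact_mod_cast h2, ?_⟩
        intro he
        have he' : f i.castSucc = f i.succ := by exact_mod_cast he
        split_ifs at h1 with a
        · omega
        · have hne : val w i.castSucc ≠ val w i.succ := by
            intro h
            have := val_inj h
            have := congrArg Fin.val this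
            simp at this
          omega
    refine ⟨hsm, ?_⟩
    intro i hi
    have h0 : (0 : ℕ) < n := i.pos
    have h1 := hc.1 ⟨0, h0⟩ rfl
    have h2 : f ⟨0, h0⟩ ≤ f i := hm (by rw [Fin.le_def]; simp)
    have h3 : w.2 ⟨0, h0⟩ = false := by
      unfold sw at h1
      rw [dif_pos h0, if_pos rfl] at h1
      split_ifs at h1 with a
      · omega
      · simpa using a
    have h4 : key w f ⟨0, h0⟩ ≤ key w f i := hsm.monotone (by rw [Fin.le_def]; simp)
    unfold key at h4
    rw [Prod.Lex.toLex_le_toLex'] at h4
    have h5 := h4.2 (by simp only; omega)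
    simp only at h5
    rw [val_false h3] at h5
    rcases hi2 : w.2 i with _ | _
    · rfl
    · rw [val_true hi2] at h5
      omega

def des {n : ℕ} (w : SP n) : ℕ :=
  (Finset.univ.filter (fun j : Fin n => j.val = 0 ∧ w.2 j = true)).card +
    (Finset.univ.filter (fun p : Fin n × Fin n => p.2.val = p.1.val + 1 ∧
      val w p.2 < val w p.1)).card

theorem sum_sw {n : ℕ} (w : SP n) : ∑ j ∈ range n, sw w j = des w := by
  unfold des
  rw [Finset.card_filter, Finset.card_filter, ← Finset.univ_product_univ,
    Finset.sum_product_right, ← Finset.sum_add_distrib, Finset.sum_range]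
  apply Finset.sum_congr rfl
  intro j _
  unfold sw
  rw [dif_pos j.2]
  simp only [Fin.eta]
  by_cases hj : j.val = 0
  · rw [if_pos hj]
    have h2 : ∑ i : Fin n, (if j.val = i.val + 1 ∧ val w j < val w i then 1 else 0) = 0 := by
      apply Finset.sum_eq_zero
      intro i _
      rw [if_neg]
      rintro ⟨h, _⟩
      omega
    rw [h2, add_zero]
    simp [hj]
  · rw [if_neg hj]
    rw [Finset.sum_eq_single (⟨j.val - 1, by omega⟩ : Fin n)]
    · have : (j.val = j.val - 1 + 1) ↔ True := by
        constructor
        · intro _; trivial
        · intro _; omega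
      simp only [hj, this, false_and, true_and, if_false, zero_add]
    · intro i _ hne
      rw [if_neg]
      rintro ⟨h, _⟩
      exact hne (Fin.ext (by simp only; omega))
    · intro h
      exact absurd (Finset.mem_univ _) h

open Classical in
/-- the signed involutions -/
noncomputable def II (n : ℕ) : Finset (SP n) := univ.filter Inv

theorem card_XX_sum (n r : ℕ) : (XX n r).card = ∑ w ∈ II n, NN n (sw w) r := by
  classical
  rw [Finset.card_eq_sum_card_fiberwise (f := fun x : SP n × (Fin n → ℕ) => x.1) (t := II n)]
  · apply Finset.sum_congr rfl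
    intro w hw
    unfold NN
    refine Finset.card_bij' (fun x _ => x.2) (fun f _ => (w, f)) ?_ ?_ ?_ ?_
    · rintro ⟨w', f⟩ hx
      rw [Finset.mem_filter, mem_XX] at hx
      obtain ⟨⟨h1, h2, h3⟩, h4⟩ := hx
      simp only at h4
      subst h4
      rw [Finset.mem_filter, Finset.mem_Iic]
      exact ⟨fun i => h1 i, compat_iff.1 h3⟩
    · intro f hf
      rw [Finset.mem_filter, Finset.mem_Iic] at hf
      rw [Finset.mem_filter, mem_XX]
      unfold II at hw
      rw [Finset.mem_filter] at hw
      exact ⟨⟨fun i => hf.1 i, hw.2, compat_iff.2 hf.2⟩, rfl⟩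
    · rintro ⟨w', f⟩ hx
      rw [Finset.mem_filter] at hx
      exact Prod.ext hx.2.symm rfl
    · intro f hf
      rfl
  · rintro ⟨w, f⟩ hx
    rw [Finset.mem_coe, mem_XX] at hx
    unfold II
    simp only [Finset.coe_filter, Set.mem_setOf_eq]
    exact ⟨Finset.mem_univ _, hx.2.1⟩

/-- the closed form -/
def hh (n r : ℕ) : ℕ :=
  ∑ j ∈ range (n / 2 + 1), (2 * r + 1).multichoose (n - 2 * j) * (r ^ 2).multichoose j

/-- main identity: the descent generating function in terms of `hh` -/
theorem gf_main (n : ℕ) :
    (PowerSeries.mk (fun r => (hh n r : ℚ))) * (1 - PowerSeries.X) ^ (n + 1) =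
      ∑ w ∈ II n, (PowerSeries.X : PowerSeries ℚ) ^ des w := by
  have h : (PowerSeries.mk (fun r => (hh n r : ℚ))) =
      ∑ w ∈ II n, PowerSeries.mk (fun r => (NN n (sw w) r : ℚ)) := by
    ext r
    rw [PowerSeries.coeff_mk, map_sum]
    simp only [PowerSeries.coeff_mk]
    rw [← Nat.cast_sum, ← card_XX_sum, card_main]
    rfl
  rw [h, Finset.sum_mul]
  apply Finset.sum_congr rfl
  intro w _
  rw [NN_gf, sum_sw]

end Pool.Agent.K4H83.BI
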