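import Pool.Agent.K4H83.BI.Gamma

set_option autoImplicit false

/-!
Nonnegativity and integrality of the gamma coefficients.
-/

namespace Pool.Agent.K4H83.BI

open Finset PowerSeries

theorem gm_rec0 (n : ℕ) : ((n : ℚ) + 2) * gm (n + 2) 0 = gm (n + 1) 0 + (n + 1) * gm n 0 := by
  have h2 : (0 : ℚ) ≤ n := Nat.cast_nonneg n
  conv_lhs => rw [gm]
  simp only [T, D, S]
  push_cast
  field_simp
  ring

theorem gm_rec1 (n : ℕ) : ((n : ℚ) + 2) * gm (n + 2) 1 = 3 * gm (n + 1) 1 +
    4 * (n + 1) * gm (n + 1) 0 + (n + 5) * gm n 1 + 4 * n * gm n 0 := by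
  have h2 : (0 : ℚ) ≤ n := Nat.cast_nonneg n
  conv_lhs => rw [gm]
  simp only [T, D, S]
  push_cast
  field_simp
  ring

theorem gm_rec2 (n k : ℕ) : ((n : ℚ) + 2) * gm (n + 2) (k + 2) = (2 * k + 5) * gm (n + 1) (k + 2) +
    4 * (n - 1 - 2 * k) * gm (n + 1) (k + 1) + (2 * (k + 2) ^ 2 + 2 * (k + 2) + n + 1) * gm n (k + 2)
    + 4 * ((2 * k + 3) * (n - 2 - 2 * k) - (k + 1)) * gm n (k + 1) +
    8 * (n - 1 - 2 * k) * (n - 2 * k) * gm n k := by
  have h2 : (0 : ℚ) ≤ n := Nat.cast_nonneg n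
  conv_lhs => rw [gm]
  simp only [T, D, S]
  push_cast
  field_simp
  ring

theorem gm_two_zero : gm 2 0 = 1 := by norm_num [gm, T, D, S]
theorem gm_two_one : gm 2 1 = 2 := by norm_num [gm, T, D, S]
theorem gm_four_one : gm 4 1 = 13 := by norm_num [gm, T, D, S]
theorem gm_four_two : gm 4 2 = 8 := by norm_num [gm, T, D, S]

theorem gm_key (k : ℕ) (hpos : ∀ m, m < 2 * k + 2 → ∀ j, 0 ≤ gm m j) :
    ((k : ℚ) + 1) * gm (2 * k + 2) (k + 1) ≤ 4 * gm (2 * k + 2) k := by
  rcases k with _ | _ | i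
  · simp only [mul_zero, zero_add]
    rw [gm_two_zero, gm_two_one]; norm_num
  · simp only [zero_add, mul_one]
    rw [gm_four_one, gm_four_two]; norm_num
  · have hi0 : (0 : ℚ) ≤ i := Nat.cast_nonneg i
    have e : 2 * (i + 1 + 1) + 2 = (2 * i + 4) + 2 := by ring
    rw [e]
    have r1 := gm_rec2 (2 * i + 4) (i + 1)
    have r2 := gm_rec2 (2 * i + 4) i
    rw [gm_supp (2 * i + 4 + 1) (i + 1 + 2) (by omega),
      gm_supp (2 * i + 4) (i + 1 + 2) (by omega)] at r1
    have p1 := hpos (2 * i + 4 + 1) (by omega) (i + 2)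
    have p2 := hpos (2 * i + 4 + 1) (by omega) (i + 1)
    have p3 := hpos (2 * i + 4) (by omega) (i + 2)
    have p4 := hpos (2 * i + 4) (by omega) (i + 1)
    have p5 := hpos (2 * i + 4) (by omega) i
    push_cast at r1 r2 ⊢
    rw [show i + 1 + 1 + 1 = i + 1 + 2 from rfl, show i + 1 + 1 = i + 2 from rfl] at *
    set a := gm (2 * i + 4 + 2) (i + 1 + 2)
    set c := gm (2 * i + 4 + 2) (i + 2)
    set b1 := gm (2 * i + 4 + 1) (i + 2)
    set b2 := gm (2 * i + 4 + 1) (i + 1)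
    set c1 := gm (2 * i + 4) (i + 2)
    set c2 := gm (2 * i + 4) (i + 1)
    set c3 := gm (2 * i + 4) i
    have q1 : ((i : ℚ) + 3) * a ≤ 2 * b1 + 8 * c2 := by
      nlinarith [mul_nonneg hi0 p3]
    have q2 : (2 * (i : ℚ) + 5) * b1 + 4 * (3 * i + 5) * c2 ≤ (2 * i + 6) * c := by
      have : 0 ≤ (2 * ((i : ℚ) + 2) ^ 2 + 2 * (i + 2) + (2 * i + 4) + 1) * c1 := by positivity
      nlinarith [mul_nonneg hi0 p3, mul_nonneg hi0 p2]
    have q3 : (2 * (i : ℚ) + 6) * (((i : ℚ) + 3) * a) ≤ (2 * i + 6) * (4 * c) := by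
      have : (2 * (i : ℚ) + 6) * (((i : ℚ) + 3) * a) ≤ (2 * i + 6) * (2 * b1 + 8 * c2) :=
        mul_le_mul_of_nonneg_left q1 (by positivity)
      nlinarith [mul_nonneg hi0 p1, mul_nonneg hi0 p4]
    have q4 := le_of_mul_le_mul_left q3 (by positivity)
    linarith

theorem gm_nonneg (n : ℕ) : ∀ k, 0 ≤ gm n k := by
  induction n using Nat.strong_induction_on with
  | _ n ih =>
    intro k
    rcases Nat.lt_or_ge n (2 * k) with hk | hk
    · rw [gm_supp n k hk]
    rcases n with _ | _ | n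
    · unfold gm; split_ifs <;> norm_num
    · unfold gm; split_ifs <;> norm_num
    have hn0 : (0 : ℚ) ≤ n := Nat.cast_nonneg n
    have hpos : (0 : ℚ) < (n : ℚ) + 2 := by linarith
    have i1 := ih (n + 1) (by omega)
    have i0 := ih n (by omega)
    suffices h : 0 ≤ ((n : ℚ) + 2) * gm (n + 2) k from nonneg_of_mul_nonneg_right h hpos
    rcases k with _ | _ | k
    · rw [gm_rec0]
      have := i1 0
      have := i0 0
      positivity
    · rw [zero_add, gm_rec1]
      have := i1 0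
      have := i0 0
      have := i1 1
      have := i0 1
      positivity
    · rw [gm_rec2]
      have a1 := i1 (k + 2)
      have a2 := i1 (k + 1)
      have a3 := i0 (k + 2)
      have a4 := i0 (k + 1)
      have a5 := i0 k
      have hk0 : (0 : ℚ) ≤ k := Nat.cast_nonneg k
      rcases (show 2 * k + 3 ≤ n ∨ n = 2 * k + 2 by omega) with h | h
      · have hq : (2 * k + 3 : ℚ) ≤ n := by exact_mod_cast h
        have c1 : (0 : ℚ) ≤ n - 1 - 2 * k := by linarith
        have c2 : (0 : ℚ) ≤ n - 2 * k := by linarith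
        have c3 : (0 : ℚ) ≤ (2 * k + 3) * (n - 2 - 2 * k) - (k + 1) := by
          nlinarith
        have b1 := mul_nonneg c1 a2
        have b2 := mul_nonneg c3 a4
        have b3 := mul_nonneg (mul_nonneg c1 c2) a5
        have b4 : 0 ≤ (2 * (k + 2) ^ 2 + 2 * (k + 2) + n + 1) * gm n (k + 2) := by positivity
        have b5 : 0 ≤ (2 * k + 5 : ℚ) * gm (n + 1) (k + 2) := by positivity
        nlinarith
      · subst h
        have hk := gm_key k (fun m hm => ih m (by omega))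
        push_cast
        have b4 : 0 ≤ (2 * ((k : ℚ) + 2) ^ 2 + 2 * (k + 2) + (2 * k + 2) + 1) *
          gm (2 * k + 2) (k + 2) := by positivity
        have b5 : 0 ≤ (2 * k + 5 : ℚ) * gm (2 * k + 2 + 1) (k + 2) := by positivity
        nlinarith

theorem coeff_B_int (m i k : ℕ) : ∃ z : ℤ, coeff k (B m i) = (z : ℚ) := by
  unfold B
  split_ifs with h
  · refine ⟨coeff k (X ^ i * (1 + X) ^ (m - 2 * i) : PowerSeries ℤ), ?_⟩
    have : (X ^ i * (1 + X) ^ (m - 2 * i) : PowerSeries ℚ) =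
        PowerSeries.map (Int.castRingHom ℚ) (X ^ i * (1 + X) ^ (m - 2 * i) : PowerSeries ℤ) := by
      simp
    rw [this, PowerSeries.coeff_map]
    simp
  · exact ⟨0, by simp⟩

theorem coeff_B_lt {m i k : ℕ} (h : k < i) : coeff k (B m i) = 0 := by
  unfold B
  split_ifs
  · rw [PowerSeries.coeff_X_pow_mul', if_neg (by omega)]
  · simp

theorem coeff_B_self {m k : ℕ} (h : 2 * k ≤ m) : coeff k (B m k) = 1 := by
  unfold B
  rw [if_pos h, PowerSeries.coeff_X_pow_mul', if_pos le_rfl]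
  simp

theorem gm_int (n : ℕ) : ∀ k, ∃ z : ℤ, gm n k = (z : ℚ) := by
  intro k
  induction k using Nat.strong_induction_on with
  | _ k ih =>
    rcases Nat.lt_or_ge n (2 * k) with hk | hk
    · exact ⟨0, by rw [gm_supp n k hk]; simp⟩
    have h1 : coeff k (P n (gm n)) = ((coeff k (∑ w ∈ II n, (X : PowerSeries ℤ) ^ des w) : ℤ) : ℚ) := by
      rw [← H_eq]
      unfold H
      rw [gf_main]
      have : (∑ w ∈ II n, (X : PowerSeries ℚ) ^ des w) =
        PowerSeries.map (Int.castRingHom ℚ) (∑ w ∈ II n, (X : PowerSeries ℤ) ^ des w) := by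
        rw [map_sum]
        simp
      rw [this, PowerSeries.coeff_map]
      simp
    have h2 : coeff k (P n (gm n)) = ∑ i ∈ range (n + 1), gm n i * coeff k (B n i) := by
      unfold P
      rw [map_sum]
      simp only [coeff_C_mul]
    rw [h2, ← Finset.sum_erase_add _ _ (Finset.mem_range.2 (show k < n + 1 by omega)),
      coeff_B_self hk, mul_one] at h1
    have h3 : ∃ z : ℤ, ∑ i ∈ (range (n + 1)).erase k, gm n i * coeff k (B n i) = (z : ℚ) := by
      have : ∀ i ∈ (range (n + 1)).erase k, ∃ z : ℤ, gm n i * coeff k (B n i) = (z : ℚ) := by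
        intro i hi
        rw [Finset.mem_erase] at hi
        rcases lt_or_gt_of_ne hi.1 with hlt | hlt
        · obtain ⟨z1, hz1⟩ := ih i hlt
          obtain ⟨z2, hz2⟩ := coeff_B_int n i k
          exact ⟨z1 * z2, by rw [hz1, hz2]; push_cast; ring⟩
        · exact ⟨0, by rw [coeff_B_lt hlt]; simp⟩
      choose! z hz using this
      refine ⟨∑ i ∈ (range (n + 1)).erase k, z i, ?_⟩
      push_cast
      exact Finset.sum_congr rfl hz
    obtain ⟨z, hz⟩ := h3
    rw [hz] at h1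
    refine ⟨coeff k (∑ w ∈ II n, (X : PowerSeries ℤ) ^ des w) - z, ?_⟩
    push_cast
    linarith

theorem gm_nat (n : ℕ) : ∃ γ : ℕ → ℕ, ∀ k, (γ k : ℚ) = gm n k := by
  have : ∀ k, ∃ m : ℕ, (m : ℚ) = gm n k := by
    intro k
    obtain ⟨z, hz⟩ := gm_int n k
    have h := gm_nonneg n k
    rw [hz] at h
    have hz0 : 0 ≤ z := by exact_mod_cast h
    refine ⟨z.toNat, ?_⟩
    rw [hz]
    have : ((z.toNat : ℤ) : ℚ) = (z : ℚ) := by rw [Int.toNat_of_nonneg hz0]
    exact_mod_cast this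
  choose γ hγ using this
  exact ⟨γ, hγ⟩

theorem final (n : ℕ) : ∃ γ : ℕ → ℕ, (∑ w ∈ II n, (Polynomial.X : Polynomial ℤ) ^ des w) =
    ∑ i ∈ Finset.range (n / 2 + 1),
        Polynomial.C (γ i : ℤ) * Polynomial.X ^ i * (1 + Polynomial.X) ^ (n - 2 * i) := by
  obtain ⟨γ, hγ⟩ := gm_nat n
  refine ⟨γ, ?_⟩
  have hinj : Function.Injective (fun p : Polynomial ℤ =>
      ((p.map (Int.castRingHom ℚ) : Polynomial ℚ) : PowerSeries ℚ)) := by
    intro p q h
    have h1 := Polynomial.coe_injective ℚ h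
    exact Polynomial.map_injective _ (RingHom.injective_int _) h1
  apply hinj
  simp only
  have h1 : (((∑ w ∈ II n, (Polynomial.X : Polynomial ℤ) ^ des w).map (Int.castRingHom ℚ) :
      Polynomial ℚ) : PowerSeries ℚ) = ∑ w ∈ II n, (X : PowerSeries ℚ) ^ des w := by
    rw [Polynomial.map_sum]
    rw [← Polynomial.coeToPowerSeries.ringHom_apply, map_sum]
    apply Finset.sum_congr rfl
    intro w _
    simp
  rw [h1, ← gf_main]
  have h2 := H_eq n
  unfold H at h2
  rw [h2]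
  unfold P
  rw [Polynomial.map_sum, ← Polynomial.coeToPowerSeries.ringHom_apply, map_sum]
  symm
  have hsub : range (n / 2 + 1) ⊆ range (n + 1) := by
    intro x hx
    rw [Finset.mem_range] at *
    omega
  rw [← Finset.sum_subset hsub]
  · apply Finset.sum_congr rfl
    intro k hk
    rw [Finset.mem_range] at hk
    unfold B
    rw [if_pos (by omega), ← hγ]
    simp
    have hc : ((((γ k : ℕ) : Polynomial ℚ)) : PowerSeries ℚ) = ((γ k : ℕ) : PowerSeries ℚ) :=
      map_natCast (Polynomial.coeToPowerSeries.ringHom (R := ℚ)) _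
    rw [hc]
    ring
  · intro k _ hk
    rw [Finset.mem_range] at hk
    rw [B_zero (by omega), mul_zero]

end Pool.Agent.K4H83.BI
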