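import Pool.Agent.K4H83.BI.PPart

set_option autoImplicit false

/-!
The recurrence for `hh`.
-/

namespace Pool.Agent.K4H83.BI

open Finset PowerSeries

theorem mc_rec (m k : ℕ) : (k + 1) * m.multichoose (k + 1) = (m + k) * m.multichoose k := by
  rw [Nat.multichoose_eq, Nat.multichoose_eq]
  rcases Nat.eq_zero_or_pos (m + k) with h | h
  · have hm : m = 0 := by omega
    have hk : k = 0 := by omega
    subst hm; subst hk; simp
  · obtain ⟨a, ha⟩ : ∃ a, m + k = a + 1 := ⟨m + k - 1, by omega⟩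
    have e1 : m + (k + 1) - 1 = a + 1 := by omega
    have e2 : m + k - 1 = a := by omega
    rw [e1, e2, ha]
    have := Nat.add_one_mul_choose_eq a k
    rw [this]
    ring

noncomputable def PA (m : ℕ) : PowerSeries ℚ := PowerSeries.mk (fun k => (m.multichoose k : ℚ))

noncomputable def PB (m : ℕ) : PowerSeries ℚ :=
  PowerSeries.mk (fun k => if k % 2 = 0 then (m.multichoose (k / 2) : ℚ) else 0)

theorem PA_der (m : ℕ) : d⁄dX ℚ (PA m) * (1 - X) = (m : PowerSeries ℚ) * PA m := by
  ext k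
  rw [mul_sub, mul_one, map_sub]
  have hm : (m : PowerSeries ℚ) = C (m : ℚ) := by simp
  rw [hm, coeff_C_mul]
  rcases k with _ | k
  · rw [PowerSeries.coeff_derivative]
    simp [PA]
  · rw [PowerSeries.coeff_succ_mul_X, PowerSeries.coeff_derivative, PowerSeries.coeff_derivative]
    unfold PA
    simp only [PowerSeries.coeff_mk]
    have h := mc_rec m (k + 1)
    have h' : ((k + 1 + 1 : ℕ) : ℚ) * (m.multichoose (k + 1 + 1) : ℚ) =
      ((m + (k + 1) : ℕ) : ℚ) * (m.multichoose (k + 1) : ℚ) := by exact_mod_cast h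
    push_cast at h' ⊢
    linarith

theorem PB_der (m : ℕ) : d⁄dX ℚ (PB m) * (1 - X ^ 2) = (2 * m : PowerSeries ℚ) * (X * PB m) := by
  have h2 : (C (2 : ℚ) : PowerSeries ℚ) = 2 := map_ofNat C 2
  have hm : (2 * m : PowerSeries ℚ) = C (2 * m : ℚ) := by simp [h2]
  ext k
  rw [mul_sub, mul_one, map_sub, hm, coeff_C_mul]
  rcases k with _ | k
  · rw [PowerSeries.coeff_derivative]
    simp [PB]
  · rw [PowerSeries.coeff_succ_X_mul]
    rcases k with _ | k
    · rw [PowerSeries.coeff_derivative]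
      have : (coeff 1) (d⁄dX ℚ (PB m) * X ^ 2) = 0 := by
        rw [PowerSeries.coeff_mul_X_pow']
        simp
      simp only [zero_add]
      rw [this]
      unfold PB
      simp
      ring
    · rw [PowerSeries.coeff_mul_X_pow']
      rw [if_pos (by omega), PowerSeries.coeff_derivative, PowerSeries.coeff_derivative]
      have e1 : k + 1 + 1 - 2 = k := by omega
      rw [e1]
      unfold PB
      simp only [PowerSeries.coeff_mk]
      by_cases hk : k % 2 = 0
      · have a1 : ¬ (k + 1) % 2 = 0 := by omega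
        have a2 : ¬ (k + 1 + 1 + 1) % 2 = 0 := by omega
        rw [if_neg a1, if_neg a2]
        ring
      · have a1 : (k + 1) % 2 = 0 := by omega
        have a2 : (k + 1 + 1 + 1) % 2 = 0 := by omega
        rw [if_pos a1, if_pos a2]
        obtain ⟨j, hj⟩ : ∃ j, k + 1 = 2 * j := ⟨(k + 1) / 2, by omega⟩
        have b1 : (k + 1) / 2 = j := by omega
        have b2 : (k + 1 + 1 + 1) / 2 = j + 1 := by omega
        rw [b1, b2]
        have h := mc_rec m j
        have h' : ((j + 1 : ℕ) : ℚ) * (m.multichoose (j + 1) : ℚ) =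
          ((m + j : ℕ) : ℚ) * (m.multichoose j : ℚ) := by exact_mod_cast h
        have hkj : (k : ℚ) + 1 = 2 * j := by exact_mod_cast hj
        push_cast at h' ⊢
        have e : (k : ℚ) = 2 * j - 1 := by linarith
        rw [e]
        linarith

theorem hh_gf (r : ℕ) : PowerSeries.mk (fun n => (hh n r : ℚ)) = PA (2 * r + 1) * PB (r ^ 2) := by
  ext n
  rw [PowerSeries.coeff_mk, PowerSeries.coeff_mul]
  unfold hh PA PB
  simp only [PowerSeries.coeff_mk]
  rw [← Finset.Nat.sum_antidiagonal_swap]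
  simp only [Prod.fst_swap, Prod.snd_swap]
  rw [Finset.Nat.sum_antidiagonal_eq_sum_range_succ (fun a b =>
    ((2 * r + 1).multichoose b : ℚ) * (if a % 2 = 0 then ((r ^ 2).multichoose (a / 2) : ℚ) else 0))]
  push_cast
  refine Finset.sum_of_injOn (fun j => 2 * j) ?_ ?_ ?_ ?_
  · intro a _ b _ h
    simp only at h
    omega
  · intro a ha
    simp only [Finset.coe_range, Set.mem_Iio] at ha ⊢
    simp only [Nat.succ_eq_add_one]
    omega
  · intro i hi hni
    rw [if_neg, mul_zero]
    intro hev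
    apply hni
    simp only [Finset.mem_range, Nat.succ_eq_add_one] at hi
    refine ⟨i / 2, ?_, ?_⟩
    · simp only [Finset.coe_range, Set.mem_Iio]
      omega
    · simp only
      omega
  · intro i hi
    rw [if_pos (by omega)]
    have : 2 * i / 2 = i := by omega
    rw [this]

theorem hh_rec (n r : ℕ) : ((n : ℚ) + 2) * hh (n + 2) r =
    (2 * r + 1) * hh (n + 1) r + (2 * r ^ 2 + 2 * r + 1 + n) * hh n r := by
  set G := PA (2 * r + 1) * PB (r ^ 2) with hG
  have hco : ∀ n, coeff n G = (hh n r : ℚ) := by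
    intro n
    rw [hG, ← hh_gf, PowerSeries.coeff_mk]
  have hd : d⁄dX ℚ G * (1 - X ^ 2) =
      (C (2 * (r : ℚ) + 1) + C (2 * (r : ℚ) ^ 2 + 2 * r + 1) * X) * G := by
    have h1 := PA_der (2 * r + 1)
    have h2 := PB_der (r ^ 2)
    rw [hG, Derivation.leibniz]
    simp only [smul_eq_mul]
    have h2' : (C (2 : ℚ) : PowerSeries ℚ) = 2 := map_ofNat C 2
    have e1 : C (2 * (r : ℚ) + 1) = ((2 * r + 1 : ℕ) : PowerSeries ℚ) := by simp [h2']
    have e2 : C (2 * (r : ℚ) ^ 2 + 2 * r + 1) =
      ((2 * r + 1 : ℕ) : PowerSeries ℚ) + (2 * ((r ^ 2 : ℕ) : PowerSeries ℚ)) := by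
      simp [h2']; ring
    rw [e1, e2]
    linear_combination (PB (r ^ 2)) * (1 + X) * h1 + (PA (2 * r + 1)) * h2
  have h := congrArg (coeff (n + 1)) hd
  rw [mul_sub, mul_one, map_sub, add_mul, map_add, coeff_C_mul, mul_assoc, coeff_C_mul,
    PowerSeries.coeff_succ_X_mul, hco, hco, PowerSeries.coeff_derivative, hco] at h
  have h3 : (coeff (n + 1) (d⁄dX ℚ G * (X : PowerSeries ℚ) ^ 2) : ℚ) = (n : ℚ) * (hh n r : ℚ) := by
    rw [PowerSeries.coeff_mul_X_pow']
    rcases n with _ | n
    · simp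
    · rw [if_pos (by omega)]
      have : n + 1 + 1 - 2 = n := by omega
      rw [this, PowerSeries.coeff_derivative, hco]
      push_cast
      ring
  rw [h3] at h
  push_cast at h
  linarith

end Pool.Agent.K4H83.BI
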